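import Pool.Agent.P8H64.GP.Stm2

/-!
Project GP (helper64), package KAS (helper1): the two bounds for the absolute moments in one.
-/

set_option autoImplicit false

namespace Pool.Agent.P8H1.GP

open MeasureTheory ProbabilityTheory Pool.Agent.P8H64.GP

theorem kas : S_SMALL → S_BIG → S_K := by
  rintro ⟨B, hB, h1⟩ ⟨D, hD, h2⟩
  obtain ⟨m, hm⟩ : ∃ m : ℝ, m = ∫ x, Real.log |x| ∂(gaussianReal 0 1) := ⟨_, rfl⟩
  have hA1 : 1 ≤ max (Real.exp B) (D * Real.exp (-(2 * m))) :=
    le_max_of_le_left (Real.one_le_exp hB.le)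
  refine ⟨max (Real.exp B) (D * Real.exp (-(2 * m))), hA1, fun τ hτ => ?_⟩
  obtain ⟨A, hA⟩ : ∃ A : ℝ, A = max (Real.exp B) (D * Real.exp (-(2 * m))) := ⟨_, rfl⟩
  rw [← hA] at hA1 ⊢
  have hAB : Real.exp B ≤ A := by rw [hA]; exact le_max_left _ _
  have hAD : D * Real.exp (-(2 * m)) ≤ A := by rw [hA]; exact le_max_right _ _
  have hA0 : 0 < A := by linarith
  have hpos : 0 < 1 + A * τ := by positivity
  rcases le_total τ 1 with h | h
  · refine (h1 τ hτ h).trans (Real.exp_le_exp.2 ?_)
    rw [← hm]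
    have h3 : (1 + A) ^ τ ≤ 1 + τ * A :=
      rpow_one_add_le_one_add_mul_self (by linarith) hτ.le h
    have h4 : τ * Real.log (1 + A) ≤ Real.log (1 + A * τ) := by
      rw [← Real.log_rpow (by linarith)]
      refine Real.log_le_log (by positivity) ?_
      rw [mul_comm A τ]
      exact h3
    have h5 : B ≤ Real.log (1 + A) := by
      rw [Real.le_log_iff_exp_le (by linarith)]
      linarith
    have h6 : B * τ ≤ Real.log (1 + A * τ) := by
      nlinarith
    nlinarith
  · refine (h2 τ h).trans ?_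
    rw [← hm]
    have hDτ : 0 < D * τ := by positivity
    rw [Real.rpow_def_of_pos hDτ]
    refine Real.exp_le_exp.2 ?_
    have h3 : Real.log (D * τ) ≤ 2 * m + Real.log (1 + A * τ) := by
      have h4 : 2 * m + Real.log (1 + A * τ) = Real.log (Real.exp (2 * m) * (1 + A * τ)) := by
        rw [Real.log_mul (Real.exp_pos _).ne' hpos.ne', Real.log_exp]
      rw [h4]
      refine Real.log_le_log hDτ ?_
      have h5 : D ≤ Real.exp (2 * m) * A := by
        have h6 := mul_le_mul_of_nonneg_left hAD (Real.exp_pos (2 * m)).le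
        have h7 : Real.exp (2 * m) * (D * Real.exp (-(2 * m))) = D := by
          rw [mul_left_comm, ← Real.exp_add, add_neg_cancel, Real.exp_zero, mul_one]
        linarith
      have h8 : 0 < Real.exp (2 * m) := Real.exp_pos _
      nlinarith [mul_le_mul_of_nonneg_right h5 hτ.le]
    nlinarith

end Pool.Agent.P8H1.GP
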